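import Pool.Agent.Helper27.BI.S5.St5
import Pool.Agent.Helper95.BI5.M_GP1

/-!
# Project BI, stage 5, module GP1X: general position of loops of arcs, also off countably many
curves
-/

set_option autoImplicit false

open scoped Manifold ContDiff Topology ComplexConjugate
open Set Pool.Agent.Helper65.Barb Pool.Agent.Helper18.BI
open Pool.Agent.Helper70.BI (I4 IsW MW NearEq ld_iff)
open Pool.Agent.Helper27.H (ArcD FingOk HatOk K3)
open Pool.Agent.Helper18.BI.H
open Pool.Agent.Helper18.BI.R (LoopOK SH)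

namespace Pool.Agent.Helper27.S5

open Pool.Agent.Helper18.BI.S5.GP1 in
open Pool.Agent.Helper34.BI (hat contDiff_hat hat_ne_zero hat_eq_zero hat_nonneg hat_le_one fam
  GenPos exists_genPos) in
theorem m_GP1X : StGP1X := by
  intro D c₀ g hc₀ hg hoff
  set C : Set (ℝ × ℝ) := Icc (0 : ℝ) 1 ×ˢ Icc D.m₀ D.m₁ with hC
  have hm : D.m₀ < D.m₁ := D.h₁
  let h : ℝ × ℝ → R4 := fun p => c₀ p.1 p.2
  have hh : ContDiff ℝ ∞ h := hc₀.smooth
  -- room in `U`
  obtain ⟨κ, hκ, hroom⟩ : ∃ κ > 0, ∀ q ∈ Icc (0 : ℝ) 1, ∀ s ∈ Icc D.m₀ D.m₁, ∀ x : R4,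
      ‖x‖ < κ → c₀ q s + x ∈ D.U := by
    have hK : IsCompact (h '' C) := (isCompact_Icc.prod isCompact_Icc).image hh.continuous
    have hsub : h '' C ⊆ D.U := by
      rintro _ ⟨⟨q, s⟩, ⟨hq, hs⟩, rfl⟩
      exact hc₀.inU q hq s hs
    obtain ⟨ε, hε, hth⟩ := hK.exists_thickening_subset_open D.openU hsub
    refine ⟨ε, hε, fun q hq s hs x hx => hth ?_⟩
    rw [Metric.mem_thickening_iff]
    refine ⟨c₀ q s, ⟨(q, s), ⟨hq, hs⟩, rfl⟩, ?_⟩
    rw [dist_eq_norm, add_sub_cancel_left]
    exact hx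
  let ρ : ℝ → ℝ := hat 0 1
  let χ : ℝ → ℝ := hat D.m₀ D.m₁
  have hρ : ContDiff ℝ ∞ ρ := contDiff_hat _ _
  have hχ : ContDiff ℝ ∞ χ := contDiff_hat _ _
  have hE : Module.finrank ℝ R4 = 4 := by
    simp [R4, Complex.finrank_real_complex]
  have hB : 0 < 1 + |D.m₀| + |D.m₁| := by positivity
  obtain ⟨v, w, hv, hw, hgp⟩ := exists_genPos (E := R4) (Y := ℂ) (h := h) (ρ := ρ)
    (χ := χ) hE Complex.finrank_real_complex hh hρ hχ (ι := Empty) (κ := ℕ)
    (f := fun i => i.elim) (T := fun i => i.elim) (fun i => i.elim) (fun i => i.elim)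
    (g := g) hg (ε := κ / (1 + |D.m₀| + |D.m₁|)) (div_pos hκ hB)
  let H : ℝ × ℝ → R4 := fam h ρ χ v w
  have hH : ContDiff ℝ ∞ H := by
    have e1 : ContDiff ℝ ∞ (fun p : ℝ × ℝ => χ p.2) := hχ.comp contDiff_snd
    have e2 : ContDiff ℝ ∞ (fun p : ℝ × ℝ => v + p.2 • w) := by fun_prop
    have e3 : ContDiff ℝ ∞ (fun p : ℝ × ℝ => ρ p.1) := hρ.comp contDiff_fst
    exact hh.add ((e3.mul e1).smul e2)
  let c : ℝ → ℝ → R4 := fun q s => H (q, s)
  have hcd : ∀ q s, c q s = c₀ q s + (ρ q * χ s) • (v + s • w) := fun q s => rfl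
  -- the perturbation is small
  have hsmall : ∀ q s, s ∈ Icc D.m₀ D.m₁ → ∀ r ∈ Icc (0 : ℝ) 1,
      ‖(r * (ρ q * χ s)) • (v + s • w)‖ < κ := by
    intro q s hs r hr
    have h1 : |s| ≤ |D.m₀| + |D.m₁| := by
      rw [abs_le]
      constructor
      · linarith [neg_abs_le D.m₀, abs_nonneg D.m₁, hs.1]
      · linarith [le_abs_self D.m₁, abs_nonneg D.m₀, hs.2]
    have h2 : ‖v + s • w‖ ≤ ‖v‖ + |s| * ‖w‖ := by
      refine (norm_add_le _ _).trans ?_
      rw [norm_smul, Real.norm_eq_abs]
    have h3 : ‖v + s • w‖ < κ := by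
      rw [lt_div_iff₀ hB] at hv hw
      have h4 : ‖v‖ * (1 + |D.m₀| + |D.m₁|) + (|D.m₀| + |D.m₁|) * ‖w‖ * (1 + |D.m₀| + |D.m₁|)
          < κ + (|D.m₀| + |D.m₁|) * κ := by
        have : (|D.m₀| + |D.m₁|) * (‖w‖ * (1 + |D.m₀| + |D.m₁|)) ≤ (|D.m₀| + |D.m₁|) * κ :=
          mul_le_mul_of_nonneg_left hw.le (by positivity)
        nlinarith
      have h5 : ‖v‖ + (|D.m₀| + |D.m₁|) * ‖w‖ < κ := by
        by_contra hcon
        push Not at hcon
        have : κ * (1 + |D.m₀| + |D.m₁|) ≤
            (‖v‖ + (|D.m₀| + |D.m₁|) * ‖w‖) * (1 + |D.m₀| + |D.m₁|) :=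
          mul_le_mul_of_nonneg_right hcon hB.le
        nlinarith
      have h6 : |s| * ‖w‖ ≤ (|D.m₀| + |D.m₁|) * ‖w‖ :=
        mul_le_mul_of_nonneg_right h1 (norm_nonneg _)
      linarith
    have h4 : |r * (ρ q * χ s)| ≤ 1 := by
      have h5 : 0 ≤ ρ q * χ s := mul_nonneg (hat_nonneg _ _ _) (hat_nonneg _ _ _)
      have h6 : ρ q * χ s ≤ 1 := mul_le_one₀ (hat_le_one _ _ _) (hat_nonneg _ _ _) (hat_le_one _ _ _)
      rw [abs_of_nonneg (mul_nonneg hr.1 h5)]
      exact mul_le_one₀ hr.2 h5 h6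
    rw [norm_smul, Real.norm_eq_abs]
    calc |r * (ρ q * χ s)| * ‖v + s • w‖ ≤ 1 * ‖v + s • w‖ :=
          mul_le_mul_of_nonneg_right h4 (norm_nonneg _)
      _ < κ := by rw [one_mul]; exact h3
  have hfroz : ∀ q ∈ Icc (0 : ℝ) 1, ∀ s, (s ≤ D.m₀ ∨ D.m₁ ≤ s) → c q s = D.c s := by
    intro q hq s hs
    have h1 : χ s = 0 := hat_eq_zero hs
    rw [hcd, h1, mul_zero, zero_smul, add_zero, hc₀.froz q hq s hs]
  have hρ0 : ρ 0 = 0 := hat_eq_zero (Or.inl le_rfl)
  have hρ1 : ρ 1 = 0 := hat_eq_zero (Or.inr le_rfl)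
  have hstart : ∀ s, c 0 s = D.c s := by
    intro s
    rw [hcd, hρ0, zero_mul, zero_smul, add_zero, hc₀.start]
  have hstop : ∀ s, c 1 s = D.c s := by
    intro s
    rw [hcd, hρ1, zero_mul, zero_smul, add_zero, hc₀.stop]
  have hLoop : LoopOK D c := by
    refine ⟨hH, hfroz, ?_, hstart, hstop⟩
    intro q hq s hs
    rw [hcd]
    have := hsmall q s hs 1 ⟨zero_le_one, le_rfl⟩
    rw [one_mul] at this
    exact hroom q hq s hs _ this
  have hcq : ∀ q, ContDiff ℝ ∞ (c q) := fun q => hH.comp (contDiff_const.prodMk contDiff_id)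
  refine ⟨c, hLoop, ?_, ?_, ?_⟩
  · intro q hq
    by_cases hρq : ρ q = 0
    · -- `q = 0` or `q = 1`
      have hq' : q = 0 ∨ q = 1 := by
        by_contra hcon
        push Not at hcon
        exact hat_ne_zero.mpr ⟨lt_of_le_of_ne hq.1 (Ne.symm hcon.1),
          lt_of_le_of_ne hq.2 hcon.2⟩ hρq
      have e : c q = D.c := by
        rcases hq' with rfl | rfl
        · exact funext hstart
        · exact funext hstop
      rw [e]
      exact ⟨base_injOn D, fun s hs => base_ne_zero D hs⟩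
    · refine ⟨?_, ?_⟩
      · intro s hs t ht hst
        by_contra hne
        by_cases hor : χ s ≠ 0 ∨ χ t ≠ 0
        · exact hgp.inj q s t hρq hne hor hst
        · push Not at hor
          have h1 : c q s = D.c s := by
            refine hfroz q hq s ?_
            by_contra hcon
            push Not at hcon
            exact hat_ne_zero.mpr hcon hor.1
          have h2 : c q t = D.c t := by
            refine hfroz q hq t ?_
            by_contra hcon
            push Not at hcon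
            exact hat_ne_zero.mpr hcon hor.2
          exact hne (base_injOn D hs ht (by rw [← h1, ← h2]; exact hst))
      · intro s hs
        by_cases hχs : χ s = 0
        · have h1 : s ≤ D.m₀ ∨ D.m₁ ≤ s := by
            by_contra hcon
            push Not at hcon
            exact hat_ne_zero.mpr hcon hχs
          have h2 : deriv (c q) s = deriv D.c s := by
            rcases h1 with h1 | h1
            · exact deriv_eq_of_eqOn ((hcq q).differentiable (by simp))
                (D.smooth.differentiable (by simp)) (uniqueDiffOn_Iic D.m₀)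
                (fun r hr => hfroz q hq r (Or.inl hr)) h1
            · exact deriv_eq_of_eqOn ((hcq q).differentiable (by simp))
                (D.smooth.differentiable (by simp)) (uniqueDiffOn_Ici D.m₁)
                (fun r hr => hfroz q hq r (Or.inr hr)) h1
          rw [h2]
          exact base_ne_zero D hs
        · have h1 := hgp.imm q s hρq hχs
          have h2 : HasFDerivAt H (fderiv ℝ H (q, s)) (q, s) :=
            (hH.differentiable (by simp) _).hasFDerivAt
          have l : HasDerivAt (fun r : ℝ => ((q, r) : ℝ × ℝ)) (0, 1) s :=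
            (hasDerivAt_const s q).prodMk (hasDerivAt_id s)
          have h3 : HasDerivAt (c q) (fderiv ℝ H (q, s) (0, 1)) s :=
            HasFDerivAt.comp_hasDerivAt_of_eq s h2 l rfl
          rw [h3.deriv]
          exact h1
  · -- the homotopy
    refine ⟨fun p => (1 - p.1) • c p.2.1 p.2.2 + p.1 • c₀ p.2.1 p.2.2, ?_, ?_, ?_⟩
    · apply Continuous.continuousOn
      have e1 : Continuous (fun p : ℝ × ℝ × ℝ => c p.2.1 p.2.2) :=
        hH.continuous.comp (by fun_prop)
      have e2 : Continuous (fun p : ℝ × ℝ × ℝ => c₀ p.2.1 p.2.2) :=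
        hh.continuous.comp (f := fun p : ℝ × ℝ × ℝ => (p.2.1, p.2.2)) (by fun_prop)
      exact ((continuous_const.sub continuous_fst).smul e1).add (continuous_fst.smul e2)
    · intro q hq s hs
      simp
    · intro u hu q hq s hs
      refine ⟨?_, ?_⟩
      · have h1 := hsmall q s hs (1 - u) ⟨by linarith [hu.2], by linarith [hu.1]⟩
        have h2 := hroom q hq s hs _ h1
        convert h2 using 1
        simp only [hcd]
        module
      · intro hb
        have h1 : c q s = D.c s ∧ c₀ q s = D.c s := by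
          rcases hb with rfl | rfl | rfl | rfl
          · exact ⟨hstart s, hc₀.start s⟩
          · exact ⟨hstop s, hc₀.stop s⟩
          · exact ⟨hfroz q hq _ (Or.inl le_rfl), hc₀.froz q hq _ (Or.inl le_rfl)⟩
          · exact ⟨hfroz q hq _ (Or.inr le_rfl), hc₀.froz q hq _ (Or.inr le_rfl)⟩
        simp only [h1.1, h1.2]
        module
  · -- off the curves
    intro n q hq s hs r
    by_cases hρq : ρ q = 0
    · have hq' : q = 0 ∨ q = 1 := by
        by_contra hcon
        push Not at hcon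
        exact hat_ne_zero.mpr ⟨lt_of_le_of_ne hq.1 (Ne.symm hcon.1),
          lt_of_le_of_ne hq.2 hcon.2⟩ hρq
      have e : c q s = D.c s := by
        rcases hq' with rfl | rfl
        · exact hstart s
        · exact hstop s
      rw [e]
      exact hoff n s hs r
    · by_cases hχs : χ s = 0
      · have h1 : s ≤ D.m₀ ∨ D.m₁ ≤ s := by
          by_contra hcon
          push Not at hcon
          exact hat_ne_zero.mpr hcon hχs
        rw [hfroz q hq s h1]
        exact hoff n s hs r
      · exact hgp.curve q s n r hρq hχs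

end Pool.Agent.Helper27.S5
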