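import Pool.Agent.Helper27.BI.S5.St5
import Pool.Agent.Helper27.BI.H.Cls

/-!
# Project BI, stage 5, module TCF: the class of the end of an isotopy
-/

set_option autoImplicit false

open scoped Manifold ContDiff Topology ComplexConjugate
open Set Filter Pool.Agent.Helper65.Barb Pool.Agent.Helper18.BI
open Pool.Agent.Helper70.BI (I4 LD NearEq IsW ld_iff ld_dfam embOn_comp contDiff_dfam)
open Pool.Agent.Helper27.H

namespace Pool.Agent.Helper27.S5

namespace TCF

/-- a family with support in `K` maps `K` into itself -/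
theorem maps_supp {A : DFam 𝓘(ℝ, R4) R4} {K : Set R4} (hK : ∀ t x, x ∉ K → A.f (t, x) = x)
    {t : ℝ} {x : R4} (hx : x ∈ K) : A.f (t, x) ∈ K := by
  by_contra hcon
  have h1 : A.f (t, A.f (t, x)) = A.f (t, x) := hK t _ hcon
  have h2 : A.g (t, A.f (t, A.f (t, x))) = A.g (t, A.f (t, x)) := congrArg (fun y => A.g (t, y)) h1
  rw [A.gf, A.gf] at h2
  exact hcon (h2.symm ▸ hx)

end TCF

theorem m_TCF : StTCF := by
  intro D A χ h0 hS hN hχ
  obtain ⟨K, hKc, hKU, hK⟩ := hS
  obtain ⟨N, hNo, hLN, hN1⟩ := hN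
  have hcont : ∀ p ∈ D.L, ContinuousAt D.J p := fun p hp =>
    (ld_iff.1 (D.emb.1 p hp)).1.self_of_nhds.continuousAt
  have hnear : ∀ p ∈ D.L, D.J p ∉ K → p ∈ interior {p | D.J p ∉ K} := by
    intro p hp hpK
    rw [mem_interior_iff_mem_nhds]
    exact (hcont p hp).eventually (hKc.isClosed.isOpen_compl.mem_nhds hpK)
  have hV : ∀ p ∈ interior {p | D.J p ∉ K}, D.J p ∉ K := fun p hp => interior_subset hp
  refine ⟨fun q p => A.f (q, D.J p), ?_, interior {p | D.J p ∉ K}, isOpen_interior, ?_, ?_, ?_,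
    ?_, ?_, ?_, fun x => A.f (1, x), ?_, hχ⟩
  · intro q _ s hs
    simp only [D.core s hs]
  · refine hnear _ (D.mem_L ⟨le_rfl, D.le₀₁⟩) fun h => D.off₀ ?_
    rw [← D.core D.s₀ ⟨le_rfl, D.le₀₁⟩]
    exact hKU h
  · refine hnear _ (D.mem_L ⟨D.le₀₁, le_rfl⟩) fun h => D.off₁ ?_
    rw [← D.core D.s₁ ⟨D.le₀₁, le_rfl⟩]
    exact hKU h
  · refine ⟨?_, ?_, ?_, ?_⟩
    · intro a _ p hp
      have h1 := (ld_iff.1 (D.emb.1 p hp)).1
      have h3 : ContinuousAt (fun z : (ℝ × ℝ) × R4 => z.2) (a, p) := continuousAt_snd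
      filter_upwards [h3.eventually h1] with z e1
      have e2 : ContDiffAt ℝ ∞ (fun z : (ℝ × ℝ) × R4 => D.J z.2) z := e1.comp z contDiffAt_snd
      have e3 : ContDiffAt ℝ ∞ (fun z : (ℝ × ℝ) × R4 => (z.1.2, D.J z.2)) z :=
        (contDiff_snd.comp contDiff_fst).contDiffAt.prodMk e2
      exact (contDiff_dfam A).contDiffAt.comp z e3
    · intro a _
      have e1 : EmbOn I4 (fun y => A.f (a.2, y)) (D.J '' D.L) := by
        refine ⟨fun y _ => ld_dfam A a.2 y, fun y _ y' _ h => ?_⟩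
        have h2 : A.g (a.2, A.f (a.2, y)) = A.g (a.2, A.f (a.2, y')) :=
          congrArg (fun y => A.g (a.2, y)) h
        rwa [A.gf, A.gf] at h2
      exact embOn_comp e1 D.emb (fun p hp => mem_image_of_mem _ hp)
    · intro a _ b _ p hp
      simp only [hK _ _ (hV p hp)]
    · intro a _ p hp hpV
      have hpK : D.J p ∈ K := by
        by_contra hcon
        exact hpV (hnear p hp hcon)
      exact hKU (TCF.maps_supp hK hpK)
  · intro p _
    exact h0 _
  · exact ⟨univ, isOpen_univ, subset_univ _, fun p _ => h0 _⟩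
  · exact ⟨N, hNo, hLN, fun p hp => hN1 p hp⟩
  · refine ⟨A.reparam step contDiff_step, ?_, ?_, ⟨K, hKc, hKU, fun t x hx => hK _ x hx⟩, univ,
      isOpen_univ, subset_univ _, ?_⟩
    · intro x
      change A.f (step 0, x) = x
      rw [Pool.Agent.Helper27.BI.step_zero, h0]
    · intro x
      change A.f (step 1, x) = A.f (1, x)
      rw [Pool.Agent.Helper27.BI.step_one]
    · intro t _ p _
      change A.f (step t, A.f (0, D.J p)) = A.f (step t, D.J p)
      rw [h0]

end Pool.Agent.Helper27.S5
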